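import Pool.Agent.Y624.SC.Part3
import Pool.Agent.Y450.SC.OPEN
import Pool.Agent.Y641.SC.Part

set_option autoImplicit false

/-!
# Coverings of the sphere by `d + 1` convex sets

No definitions are used in the statement.
Authors of the parts: helper606 (coordinates in a cell), helper780 and helper239 (the diameter of a
cell), helper43 and helper87 (the averages), helper145 (the inner products), helper888 (positive
functionals), helper450 (interiors), helper641 (disjoint sets), helper624 (the rest). Brouwer's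
fixed point theorem is in a library of helper133.
-/

namespace Pool.Agent.Results.MP_3d13a5_co.ConvexCoverings

open Metric Pool.Agent.Y624.SC

/-- Let `v 0, ..., v d` be the vertices of a regular simplex inscribed in the unit sphere `S` of
`ℝ ^ d`, `2 ≤ d`. Let `σ` be the diameter of the set of the points of `S` for which `v 0` is a
nearest vertex, that is, the diameter of the parts of the simplex partition. Let `A 0, ..., A d` be
sets which cover `S`, such that every `A i ∩ S` is convex in `S` (`hconv`: if `x`, `y` are in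
`A i ∩ S` then so are the unit vectors of the form `a x + b y` with `a, b ≥ 0`).

(1) The diameter of some `A i ∩ S` is at least `σ`.

(2) If all these diameters are at most `σ` then there is a regular simplex with vertices
`u 0, ..., u d` inscribed in `S` such that `A i` contains all points of `S` for which `u i` is the
only nearest vertex; and if moreover the sets `A i ∩ S` are pairwise disjoint, then `u i` is a
nearest vertex for all points of `A i ∩ S`. So the simplex partition is the only optimal partition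
of `S` into `d + 1` convex sets, except for the boundaries of its parts. -/
theorem result (d : ℕ) (hd : 2 ≤ d) (v : Fin (d + 1) → EuclideanSpace ℝ (Fin d))
    (hv : ∀ i, ‖v i‖ = 1) (hvv : ∀ i j, i ≠ j → inner ℝ (v i) (v j) = -1 / (d : ℝ))
    (A : Fin (d + 1) → Set (EuclideanSpace ℝ (Fin d)))
    (hcov : sphere (0 : EuclideanSpace ℝ (Fin d)) 1 ⊆ ⋃ i, A i)
    (hconv : ∀ i, ∀ x ∈ A i, ‖x‖ = 1 → ∀ y ∈ A i, ‖y‖ = 1 → ∀ a b : ℝ, 0 ≤ a → 0 ≤ b →
      ‖a • x + b • y‖ = 1 → a • x + b • y ∈ A i) :
    (∃ i, diam {x ∈ sphere (0 : EuclideanSpace ℝ (Fin d)) 1 |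
        ∀ j, inner ℝ x (v j) ≤ inner ℝ x (v 0)} ≤
      diam (A i ∩ sphere (0 : EuclideanSpace ℝ (Fin d)) 1)) ∧
    ((∀ i, diam (A i ∩ sphere (0 : EuclideanSpace ℝ (Fin d)) 1) ≤
        diam {x ∈ sphere (0 : EuclideanSpace ℝ (Fin d)) 1 |
          ∀ j, inner ℝ x (v j) ≤ inner ℝ x (v 0)}) →
      ∃ u : Fin (d + 1) → EuclideanSpace ℝ (Fin d), (∀ i, ‖u i‖ = 1) ∧
        (∀ i j, i ≠ j → inner ℝ (u i) (u j) = -1 / (d : ℝ)) ∧
        (∀ i x, ‖x‖ = 1 → (∀ j, j ≠ i → inner ℝ x (u j) < inner ℝ x (u i)) → x ∈ A i) ∧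
        ((∀ i j, i ≠ j → ∀ x, ‖x‖ = 1 → x ∈ A i → x ∉ A j) →
          ∀ i x, ‖x‖ = 1 → x ∈ A i → ∀ j, inner ℝ x (u j) ≤ inner ℝ x (u i))) :=
  ⟨part1 d hd v hv hvv A hconv hcov, fun hle =>
    part3 Pool.Agent.Y450.SC.OPEN.done Pool.Agent.Y641.SC.PART.done d hd v hv hvv A hconv hcov hle⟩

end Pool.Agent.Results.MP_3d13a5_co.ConvexCoverings
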